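import Pool.Agent.MFI.DF6
import Pool.Agent.MFI.DU2
import Pool.Agent.MFI.Main
import Pool.Agent.MFI.PubM
import Pool.Agent.MFI.PubT

/-!
# MP_c8c50b_ag: isotopy invariance of categories of matrix factorizations, affine case

`𝒰 = Spf A` is an affine smooth formal scheme over a field `k` of characteristic `0`: `A` is a
noetherian `k`-algebra, complete for the `I`-adic topology, and its module of separated differentials
is finitely generated projective, with a finite frame `X` (`Pool.Agent.MFI.Frame`). The theorem is
the positive answer to Q1 for all affine `𝒰`: for every admissible family `φ` the dg functors `φ_t^*`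
on matrix factorizations are independent of `t`.

The hypothesis that `φ_t` induces the identity on `dCrit(f)` with its symplectic structure, for every
`t ∈ k` separately, is `Pool.Agent.MFI.IsIdOnDCrit` (file `MFI/PubDR.lean`). Matrix factorizations,
dg functors, their equivalence and `φ^*` are in `MFI/Pub.lean`.
-/

set_option autoImplicit false

open PowerSeries Pool.Agent.MFI

namespace Pool.Agent.Results.MP_c8c50b_ag.IsotopyAffine

universe u

/-- An admissible family on `𝒰 = Spf A`. The morphism `φ : 𝒰 × 𝔸¹ → 𝒰` is given by the homomorphism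
`φ : A → A⟨t⟩` into the restricted power series; for every `t ∈ k` its value `φ_t` is an
automorphism `ψ t` of `A` with `φ_t(f) = f`, which induces the identity on the derived critical locus
`dCrit(f)`, together with its `(-1)`-shifted symplectic structure. -/
structure Admissible {k A : Type u} [Field k] [CommRing A] [Algebra k A] {I : Ideal A} {n : ℕ}
    (X : Frame k A I n) (f : A) (φ : A →ₐ[k] PowerSeries A) (ψ : k → (A ≃ₐ[k] A)) : Prop where
  restricted : ∀ a N, ∃ M, ∀ m ≥ M, coeff m (φ a) ∈ I ^ N
  value : ∀ t, IsValue I φ t (ψ t)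
  invariant : ∀ t, ap (ψ t) f = f
  identity : ∀ t, IsIdOnDCrit X f (ψ t)

/-- **Isotopy invariance of matrix factorizations on affine smooth formal schemes.** Let `I` be the
radical of the ideal of the critical locus of `f` (`Crit(f)_red = 𝒰_red`). For every admissible family
and every `t ∈ k`, the dg functors `φ_0^*` and `φ_t^*` on the dg category of matrix factorizations of
`f` are equivalent. -/
theorem result {k A : Type u} [Field k] [CharZero k] [CommRing A] [Algebra k A]
    [IsNoetherianRing A] {I : Ideal A} [IsAdicComplete I A] {n : ℕ} (X : Frame k A I n) (f : A)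
    (hcrit : (Ideal.span (Set.range fun i => X.D i f)).radical = I) (φ : A →ₐ[k] PowerSeries A)
    (ψ : k → (A ≃ₐ[k] A)) (Φ : Admissible X f φ ψ) (t : k) :
    (DGFun.pb (ψ 0) (Φ.invariant 0)).Equiv (DGFun.pb (ψ t) (Φ.invariant t)) := by
  have hI : I.IsRadical := by
    rw [← hcrit]
    exact Ideal.radical_isRadical _
  have hf : ∀ i, X.D i f ∈ I := fun i =>
    hcrit.le (Ideal.le_radical (Ideal.subset_span ⟨i, rfl⟩))
  have hN : ∃ N, I ^ N ≤ Ideal.span (Set.range fun i => X.D i f) := by
    obtain ⟨N, h1⟩ := Ideal.exists_radical_pow_le_of_fg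
      (Ideal.span (Set.range fun i => X.D i f)) (IsNoetherian.noetherian _)
    exact ⟨N, by rwa [hcrit] at h1⟩
  have hred : IsReduced (A ⧸ I) := (Ideal.isRadical_iff_quotient_reduced I).1 hI
  have hfin : (minimalPrimes (A ⧸ I)).Finite := minimalPrimes.finite_of_isNoetherianRing (A ⧸ I)
  obtain ⟨F, rfl⟩ := m_DC X hf hN φ Φ.restricted ψ Φ.value Φ.invariant
    (fun t => (Φ.identity t).sympPath)
  let _ : Algebra ℚ A := Algebra.compHom A (algebraMap ℚ k)
  exact DGEqL.ext (ψ 0) (Φ.invariant 0) (fun P => by
    obtain ⟨m, i, h1, h2⟩ := MFac.exists_mat P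
    exact ⟨⟨m, i, h1, h2⟩⟩) (ψ t) (Φ.invariant t)
    (main_GENF I hfin X f hf F (fun t => (ψ t : A →+* A)) Φ.value (ψ 0).bijective Φ.invariant t)

end Pool.Agent.Results.MP_c8c50b_ag.IsotopyAffine
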